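import Pool.Agent.Y969.GP.Fin4

set_option autoImplicit false

/-!
# Moments of zeta of every order with square root remainder, for almost all shifts

For shifts `c = (c_1, …, c_n)` and `c_0 = 0` let

`I(c, S) = ∫_0^S |ζ(1/2 + it)|² |ζ(1/2 + i(t + c_1))|² ⋯ |ζ(1/2 + i(t + c_n))|² dt`,

which for `c = 0` is the moment of order `2(n + 1)`.  For every `n` and every `ε > 0`, and for all
`c ∈ [0, T]^n` outside a set of measure at most `T^(n - δ)`, `δ = δ(n, ε) > 0`,

`I(c, S) = ∫_0^S P(c, t) dt + O(T^(1/2 + ε))`,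

with the full main term of the recipe of Conrey, Farmer, Keating, Rubinstein and Snaith, all the
lower order terms included, in the form of an `(n + 1)`-fold contour integral.
-/

namespace Pool.Agent.Results.MP_07318d_nt.GenericPairs

open Complex MeasureTheory

noncomputable section

variable {n k : ℕ}

/-- All the shifts: `c_0 = 0` and `c_1, …, c_n`. -/
def shifts (c : Fin n → ℝ) : Fin (n + 1) → ℝ := Fin.cons 0 c

/-- The shifted moment of order `2(n + 1)`: the integral over `[0, S]` of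
`|ζ(1/2 + it)|² |ζ(1/2 + i(t + c_1))|² ⋯ |ζ(1/2 + i(t + c_n))|²`. -/
def moment (c : Fin n → ℝ) (S : ℝ) : ℝ :=
  ∫ t in (0:ℝ)..S, ∏ j, ‖riemannZeta (1 / 2 + I * (t + shifts c j))‖ ^ 2

/-- The shifted divisor function: the sum over `d_1 d_2 ⋯ d_k = m` of `∏ j, d_j ^ l_j`. -/
def tau (l : Fin k → ℂ) (m : ℕ) : ℂ :=
  ∑ d ∈ Nat.finMulAntidiag k m, ∏ j, (d j : ℂ) ^ (l j)

/-- The Euler factor at `p` of the arithmetic factor: `∏_{j,l} (1 - p^(-1-x_j-y_l))` times the sum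
over `m` of `τ_{-x}(p^m) τ_{-y}(p^m) p^(-m)`. -/
def localFactor (x y : Fin k → ℂ) (p : ℕ) : ℂ :=
  (∏ j, ∏ l, (1 - (p : ℂ) ^ (-(1 + x j + y l)))) *
    ∑' m : ℕ, tau (fun j => -x j) (p ^ m) * tau (fun j => -y j) (p ^ m) / (p : ℂ) ^ m

/-- The arithmetic factor, an Euler product; it is `A_k(x_1, …, x_k, -y_1, …, -y_k)`. -/
def arith (x y : Fin k → ℂ) : ℂ := ∏' p : Nat.Primes, localFactor x y p

/-- The function `A_k ∏ ζ(1 + x_j + y_l)` of the recipe, with `x_j = w_j + i c_j` and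
`y_j = w_j - i c_j`. -/
def D (c : Fin n → ℝ) (w : Fin (n + 1) → ℂ) : ℂ :=
  arith (fun j => w j + I * shifts c j) (fun j => w j - I * shifts c j) *
    ∏ j, ∏ l, riemannZeta (1 + w j + w l + I * (shifts c j - shifts c l))

/-- The main term: `(2πi)^(-(n+1))` times the integral over `|w_0| = ⋯ = |w_n| = 1/8` of
`D(c, w) ∏_j (2/w_j) ((t + c_j)/2π)^(w_j)`. -/
def mainTerm (c : Fin n → ℝ) (t : ℝ) : ℂ :=
  ((2 * Real.pi * I) ^ (n + 1))⁻¹ * torusIntegral (fun w : Fin (n + 1) → ℂ =>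
    D c w * ∏ j, (2 / w j * exp (w j * Real.log ((t + shifts c j) / (2 * Real.pi)))))
    (fun _ => 0) (fun _ => 1 / 8)

lemma arith_eq (c : Fin n → ℝ) (w : Fin (n + 1) → ℂ) :
    arith (fun j => w j + I * shifts c j) (fun j => w j - I * shifts c j) =
      Pool.Agent.TH612.CF.FH (Pool.Agent.Y969.GP.av c w) (Pool.Agent.Y969.GP.bv c w) := by
  unfold arith Pool.Agent.TH612.CF.FH
  refine tprod_congr fun p => ?_
  unfold localFactor Pool.Agent.TH612.CF.lh Pool.Agent.TH612.CF.lt Pool.Agent.Y969.GP.av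
    Pool.Agent.Y969.GP.bv
  have hI : I * I = -1 := I_mul_I
  have ea : ∀ j, I * ((Pool.Agent.Y969.GP.cc c j : ℂ) - I * w j) = w j + I * shifts c j := by
    intro j
    show I * ((shifts c j : ℂ) - I * w j) = _
    linear_combination (-w j) * hI
  have eb : ∀ j, I * ((Pool.Agent.Y969.GP.cc c j : ℂ) + I * w j) = -(w j - I * shifts c j) := by
    intro j
    show I * ((shifts c j : ℂ) + I * w j) = _
    linear_combination (w j) * hI
  congr 1
  · refine Finset.prod_congr rfl fun j _ => Finset.prod_congr rfl fun l _ => ?_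
    rw [ea, eb]
    congr 2
    ring
  · refine tsum_congr fun m => ?_
    simp only [ea, eb]
    rw [div_eq_mul_inv, mul_comm (tau _ _) (tau _ _)]
    rfl

lemma mainTerm_eq (c : Fin n → ℝ) (t : ℝ) : mainTerm c t = Pool.Agent.Y969.GP.RR c t := by
  unfold mainTerm Pool.Agent.Y969.GP.RR D
  simp only [arith_eq]
  rfl

lemma moment_eq (c : Fin n → ℝ) (S : ℝ) : moment c S =
    ∫ t in (0:ℝ)..S, ∏ j, Pool.Agent.Y969.GP.ff (t + Pool.Agent.Y969.GP.cc c j) := by
  unfold moment Pool.Agent.Y969.GP.ff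
  simp only [ofReal_add]
  rfl

/-- For every `n` and `ε > 0` there are `δ > 0` and `T₀` such that for all `T ≥ T₀` and
`0 ≤ S ≤ T`: for all `c ∈ [0, T]^n` outside a set of measure at most `T^(n - δ)`, the shifted moment
`∫_0^S |ζ(1/2 + it)|² ∏_j |ζ(1/2 + i(t + c_j))|² dt` differs from the integral of the main term by at
most `T^(1/2 + ε)`. -/
theorem result (n : ℕ) (ε : ℝ) (hε : 0 < ε) : ∃ δ T₀ : ℝ, 0 < δ ∧ ∀ T S : ℝ, T₀ ≤ T → 0 ≤ S →
    S ≤ T → volume {c : Fin n → ℝ | (∀ j, 0 ≤ c j ∧ c j ≤ T) ∧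
      T ^ (1 / 2 + ε) < ‖(moment c S : ℂ) - ∫ t in (0:ℝ)..S, mainTerm c t‖} ≤
    ENNReal.ofReal (T ^ (n - δ)) := by
  obtain ⟨δ, T₀, hδ, h⟩ := Pool.Agent.Y969.GP.main n ε hε
  refine ⟨δ, T₀, hδ, fun T S hT hS hST => ?_⟩
  have := h T S hT hS hST
  simp only [mainTerm_eq, moment_eq]
  exact this

end

end Pool.Agent.Results.MP_07318d_nt.GenericPairs
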