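import Pool.Agent.Y752.Edge

set_option autoImplicit false

/-!
# Moments of zeta with square root remainder, tested against frequencies off `[1, 2k-1]`
-/

namespace Pool.Agent.Results.MP_07318d_nt.OuterBands

open Complex MeasureTheory
open scoped ContDiff

noncomputable section

variable {k : ℕ}

/-- The shifted divisor function: the sum over `d_1 d_2 ⋯ d_k = n` of `∏ j, d_j ^ l_j`. -/
def tau (l : Fin k → ℂ) (n : ℕ) : ℂ :=
  ∑ d ∈ Nat.finMulAntidiag k n, ∏ j, (d j : ℂ) ^ (l j)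

/-- The shifted moment of order `2k`; for `z = w = 0` and `y = 0` it is the integral of
`|ζ(1/2 + it)| ^ (2k)` over `[0, T]`. -/
def moment (z w : Fin k → ℝ) (y T : ℝ) : ℂ :=
  ∫ t in (0:ℝ)..T, (∏ j, riemannZeta (1 / 2 + I * (y + t + z j))) *
    ∏ j, riemannZeta (1 / 2 + I * (y - t + w j))

/-- The Fourier transform of the test function. -/
def hat (ψ : ℝ → ℂ) (y : ℝ) : ℂ := ∫ ξ : ℝ, ψ ξ * exp (I * ξ * y)

/-- The part of `ψ` to the left of `1`. -/
def left (ψ : ℝ → ℂ) (ξ : ℝ) : ℂ := if ξ < 1 then ψ ξ else 0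

/-- The part of `ψ` to the right of `1`. -/
def right (ψ : ℝ → ℂ) (ξ : ℝ) : ℂ := if ξ < 1 then 0 else ψ ξ

/-- For every `k ≥ 1` and every test function `ψ` whose support avoids `[1, 2k-1]`: the full
asymptotic formula with remainder `O(T ^ (1/2 + ε))` for the average over `y` of the shifted moment
against `hat ψ (y log T)`. -/
theorem result (k : ℕ) (hk : 1 ≤ k) (z w : Fin k → ℝ) (ψ : ℝ → ℂ) (hψ : ContDiff ℝ ∞ ψ)
    (hc : HasCompactSupport ψ) (hs : ∀ ξ ∈ Set.Icc (1:ℝ) (2 * k - 1), ξ ∉ tsupport ψ) :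
    (∀ T : ℝ, Real.exp 1 ≤ T → Integrable fun y : ℝ => hat ψ (Real.log T * y) * moment z w y T) ∧
    ∀ ε : ℝ, 0 < ε → ∃ C T₀ : ℝ, ∀ T : ℝ, T₀ ≤ T →
      ‖(∫ y : ℝ, hat ψ (Real.log T * y) * moment z w y T) -
        ((2 * Real.pi / Real.log T : ℝ) : ℂ) *
        ((T : ℂ) * (∑' n : ℕ, tau (fun j => -(z j * I)) n * tau (fun j => -(w j * I)) n / n *
            left ψ (2 * Real.log n / Real.log T)) +
          ∑' n : ℕ, tau (fun j => w j * I) n * tau (fun j => z j * I) n / n *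
          ∫ t in (1:ℝ)..T, exp ((-(∑ j, (z j + w j)) * Real.log (t / (2 * Real.pi)) : ℝ) * I) *
            right ψ ((2 * k * Real.log (t / (2 * Real.pi)) - 2 * Real.log n) / Real.log T))‖ ≤
      C * T ^ (1 / 2 + ε) :=
  ⟨fun _ hT => Pool.Agent.Y752.Edge.integrable hψ hc z w hT,
    fun _ hε => Pool.Agent.Y752.Edge.both hψ hc hk hs z w hε⟩

end

end Pool.Agent.Results.MP_07318d_nt.OuterBands
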