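import Pool.Agent.Y752.SR.M3

set_option autoImplicit false

/-!
The conjecture of Conrey, Farmer, Keating, Rubinstein and Snaith for the moments of order `2k` of the
Riemann zeta function, in its form with shifts, with a remainder of square-root size, for almost all
shift vectors.
-/

namespace Pool.Agent.Results.MP_07318d_nt.SquareRootShifts

open Complex MeasureTheory Filter

noncomputable section

variable {k : ℕ}

/-- The divisor function `τ_l(n)`: the sum over `d_1 d_2 ⋯ d_k = n` of `∏ j, d_j ^ l_j`. -/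
def tau (l : Fin k → ℂ) (n : ℕ) : ℂ :=
  ∑ d ∈ Nat.finMulAntidiag k n, ∏ j, (d j : ℂ) ^ (l j)

/-- The Euler factor of `F(s; a, b)` at the prime `p`. -/
def localFactor (s : ℂ) (a b : Fin k → ℝ) (p : ℕ) : ℂ :=
  (∏ j, ∏ l, (1 - (p : ℂ) ^ (-(2 * s + I * a j - I * b l)))) *
    ∑' m : ℕ, tau (fun j => I * b j) (p ^ m) * tau (fun j => -(I * a j)) (p ^ m) *
      (p : ℂ) ^ (-(2 * m * s))

/-- The arithmetic factor `F(s; a, b)`, an Euler product. -/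
def arithF (s : ℂ) (a b : Fin k → ℝ) : ℂ := ∏' p : Nat.Primes, localFactor s a b p

/-- `ζ_{(a, b)}(s)`, through `F(s; a, b)` and the product of `k ^ 2` zeta functions; for `Re s > 1/2`
it is the sum of `τ_{ib}(n) τ_{-ia}(n) n ^ (-2s)` over `n ≥ 1`. -/
def zetaAB (s : ℂ) (a b : Fin k → ℝ) : ℂ :=
  arithF s a b * ∏ j, ∏ l, riemannZeta (2 * s + I * a j - I * b l)

/-- The factor `χ` of the functional equation `ζ(s) = χ(s) ζ(1 - s)`. -/
def chi (s : ℂ) : ℂ := (Real.pi : ℂ) ^ (s - 1 / 2) * Gamma ((1 - s) / 2) / Gamma (s / 2)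

/-- `Z_{α, β}(t)`, where `γ = (α, β)` is indexed by `Fin k ⊕ Fin k`. -/
def Z (γ : Fin k ⊕ Fin k → ℝ) (t : ℝ) : ℂ :=
  ∏ j : Fin k, riemannZeta (1 / 2 + I * (t + γ (Sum.inl j))) *
    riemannZeta (1 / 2 - I * (t + γ (Sum.inr j)))

/-- `G_γ(π)`, where `π(γ)` has the coordinates `γ (π i)`. -/
def G (γ : Fin k ⊕ Fin k → ℝ) (t : ℝ) (π : Equiv.Perm (Fin k ⊕ Fin k)) : ℂ :=
  (∏ j : Fin k, if (π (Sum.inl j)).isRight then chi (1 / 2 - I * t - I * γ (π (Sum.inl j))) else 1) *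
  ∏ j : Fin k, if (π (Sum.inr j)).isLeft then chi (1 / 2 + I * t + I * γ (π (Sum.inr j))) else 1

/-- `Q_k(t; α, β)`, the prediction with all the swaps: the summand depends only on the class of `π` in
`S_{2k} / (S_k × S_k)`, so the sum over the classes is the sum over all `π`, divided by `(k!) ^ 2`. -/
def Q (γ : Fin k ⊕ Fin k → ℝ) (t : ℝ) : ℂ :=
  ((Nat.factorial k : ℂ) ^ 2)⁻¹ * ∑ π : Equiv.Perm (Fin k ⊕ Fin k),
    G γ t π * zetaAB (1 / 2) (fun j => γ (π (Sum.inl j))) (fun j => γ (π (Sum.inr j)))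

open Pool.Agent.TH612.CF in
lemma zetaAB_eq (a b : Fin k → ℝ) :
    zetaAB (1 / 2) a b = zab (fun j => (a j : ℂ)) (fun j => (b j : ℂ)) := by
  unfold zetaAB zab arithF FH
  congr 1
  · refine tprod_congr fun p => ?_
    unfold localFactor lh lt
    congr 1
    · refine Finset.prod_congr rfl fun j _ => Finset.prod_congr rfl fun l _ => ?_
      congr 2
      ring
    · refine tsum_congr fun m => ?_
      have hp : ((p : ℕ) : ℂ) ≠ 0 := by exact_mod_cast p.2.ne_zero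
      have e : ((p : ℕ) : ℂ) ^ (-(2 * (m : ℂ) * (1 / 2))) = (((p : ℕ) : ℂ) ^ m)⁻¹ := by
        rw [← Complex.cpow_natCast, ← Complex.cpow_neg]
        congr 1; ring
      rw [e]
      rfl
  · refine Finset.prod_congr rfl fun j _ => Finset.prod_congr rfl fun l _ => ?_
    congr 1
    ring

open Pool.Agent.TH612.CF in
lemma Q_eq (γ : Fin k ⊕ Fin k → ℝ) (t : ℝ) :
    Q γ t = ((Nat.factorial k : ℂ) ^ 2)⁻¹ * Qs t (fun i => (γ i : ℂ)) := by
  unfold Q Qs Rt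
  congr 1
  refine Finset.sum_congr rfl fun π _ => ?_
  rw [zetaAB_eq]
  rfl

lemma int_Z (γ : Fin k ⊕ Fin k → ℝ) (S : ℝ) :
    ∫ t in (0:ℝ)..S, Z γ t = ∫ t in (0:ℝ)..S, Pool.Agent.Y752.SR.zp γ t :=
  Pool.Agent.Y752.SR.int_Zg γ S

lemma Z_cont (γ : Fin k ⊕ Fin k → ℝ) : Continuous fun t : ℝ => Z γ t :=
  Pool.Agent.TH612.GS.Zg_cont γ

lemma ZQ_cont (γ : Fin k ⊕ Fin k → ℝ) : Continuous fun t : ℝ => Z γ t - Q γ t := by
  have h := (Pool.Agent.TH612.GS.Zg_cont γ).sub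
    ((continuous_const (y := ((Nat.factorial k : ℂ) ^ 2)⁻¹)).mul
      (Pool.Agent.TH612.GS.Qs_cont γ))
  refine h.congr fun t => ?_
  rw [Q_eq]
  rfl

/-- Let `k` be a natural number, `θ > 1 / 2` and `ε > 0`. There are `δ > 0` and `T₀` such that for all
`T ≥ T₀` and all `H` with `T ^ θ ≤ H ≤ T` the following holds for all `γ = (α, β)` in the cube
`[0, H] ^ (2k)` outside a set of measure at most `H ^ (2k) T ^ (-δ)`:
`|∫_0^S (Z_{α, β}(t) - Q_k(t; α, β)) dt| ≤ T ^ (1 + ε) H ^ (-1/2)` for all `0 ≤ S ≤ T`;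
and the same with `∫_0^S Z_{α, β}(t) dt - S ζ_{(α, β)}(1/2)` in the place of the integral. For `H = T`
the bound is `T ^ (1/2 + ε)`. -/
theorem result (k : ℕ) {θ ε : ℝ} (hθ : 1 / 2 < θ) (hε : 0 < ε) :
    (∀ γ : Fin k ⊕ Fin k → ℝ, (Continuous fun t : ℝ => Z γ t) ∧ Continuous fun t : ℝ => Z γ t - Q γ t) ∧
    ∃ δ : ℝ, 0 < δ ∧ ∃ T₀ : ℝ, ∀ T H : ℝ, T₀ ≤ T → T ^ θ ≤ H → H ≤ T →
      volume {γ : Fin k ⊕ Fin k → ℝ | (∀ i, 0 ≤ γ i ∧ γ i ≤ H) ∧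
        ∃ S : ℝ, 0 ≤ S ∧ S ≤ T ∧
          T ^ (1 + ε) / H ^ (1 / 2 : ℝ) < ‖∫ t in (0:ℝ)..S, (Z γ t - Q γ t)‖} ≤
        ENNReal.ofReal (H ^ (2 * k) * T ^ (-δ)) ∧
      volume {γ : Fin k ⊕ Fin k → ℝ | (∀ i, 0 ≤ γ i ∧ γ i ≤ H) ∧
        ∃ S : ℝ, 0 ≤ S ∧ S ≤ T ∧ T ^ (1 + ε) / H ^ (1 / 2 : ℝ) <
          ‖(∫ t in (0:ℝ)..S, Z γ t) -
            S * zetaAB (1 / 2) (fun j => γ (Sum.inl j)) (fun j => γ (Sum.inr j))‖} ≤
        ENNReal.ofReal (H ^ (2 * k) * T ^ (-δ)) := by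
  refine ⟨fun γ => ⟨Z_cont γ, ZQ_cont γ⟩, ?_⟩
  obtain ⟨δ, hδ, T₀, h⟩ := Pool.Agent.Y752.SR.final k hθ hε
  refine ⟨δ, hδ, T₀, fun T H hT hH hHT => ?_⟩
  obtain ⟨h1, h2⟩ := h T H hT hH hHT
  constructor
  · refine le_trans (le_of_eq ?_) h1
    congr 1
    ext γ
    unfold Pool.Agent.TH612.GS.DD
    simp only [Set.mem_ofPred_eq, Q_eq]
    rfl
  · refine le_trans (le_of_eq ?_) h2
    congr 1
    ext γ
    simp only [Set.mem_ofPred_eq, int_Z, zetaAB_eq]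
    rfl

end

end Pool.Agent.Results.MP_07318d_nt.SquareRootShifts
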